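import Pool.Agent.helper36.PT.Spec
import Pool.Agent.helper23.AA.K3
import Pool.Agent.helper71.AA.K4

/-! # Project PT (MP_ad8ced_nt): row DIA -/

set_option autoImplicit false

namespace Pool.Agent.PT

open Finset Pool.Agent.helper71.AA

lemma DIA_two (w Z : ℕ) (Q : Finset ℕ) (hQ : Q ⊆ Qs w Z) : ∀ l ∈ Q, 2 ≤ l := by
  intro l hl
  have := hQ hl
  unfold Qs at this
  exact (mem_filter.1 this).2.two_le

lemma DIA_Sg_empty (Q : Finset ℕ) (R : ℝ) : Sg Q R ∅ = Gs Q R := by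
  unfold Sg Gs
  refine sum_congr rfl fun K _ => ?_
  have : ch K ∅ = 1 := by
    unfold ch
    refine prod_eq_one fun l _ => ?_
    simp
  rw [this]

lemma DIA_fw_nonneg {w : ℕ} {X η : ℝ} {ξ : Finset ℕ → ℝ} (h : AdmL X η ξ) (p : ℕ) (a : ℤ) :
    0 ≤ fw w X η ξ p a := by
  unfold fw
  exact mul_nonneg (sq_nonneg _) (h.nn _ (filter_subset _ _))

lemma DIA_ft_nonneg {w : ℕ} {X η : ℝ} {ξ : Finset ℕ → ℝ} (h : AdmL X η ξ) (p : ℕ) (a : ℤ) :
    0 ≤ ft w X η ξ p a := by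
  unfold ft
  split_ifs
  · exact DIA_fw_nonneg h p a
  · exact le_rfl

lemma DIA_ft_le {w : ℕ} {X η : ℝ} {ξ : Finset ℕ → ℝ} (h : AdmL X η ξ) (p : ℕ) (a : ℤ) :
    ft w X η ξ p a ≤ fw w X η ξ p a := by
  unfold ft
  split_ifs
  · exact le_rfl
  · exact DIA_fw_nonneg h p a

lemma DIA_Bd_fw (w : ℕ) (X η : ℝ) (ξ : Finset ℕ → ℝ) (p : ℕ) : Bd (fw w X η ξ p) := by
  have h1 := Bd.az (Qm w X η) p (fun A => Sg ((Qm w X η).erase p) (Rr X) A ^ 2)
  have h2 := Bd.az (Ql X η) p (fun A => U ξ A)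
  exact h1.mul h2

/-- the number of large primes dividing `a p² - 1` -/
lemma DIA_card (X η : ℝ) (hX : 2 ≤ X) (hη : 0 < η) (p : ℕ) (hp : p.Prime)
    (hpX : (p : ℝ) ≤ X ^ (0.0001 : ℝ)) (hbig : X ^ (2 : ℝ) * X ^ (0.0002 : ℝ) + 1 ≤ X ^ (2.1 : ℝ))
    (a : ℤ) (ha : |(a : ℝ)| ≤ X ^ 2) :
    (((Az (Ql X η) p a).card : ℕ) : ℝ) ≤ 2.1 / η := by
  set T := Az (Ql X η) p a with hT
  have hX0 : 0 < X := by linarith
  have hlp : ∀ l ∈ T, l.Prime ∧ X ^ η < (l : ℝ) ∧ (l : ℤ) ∣ a * p ^ 2 - 1 := by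
    intro l hl
    rw [hT] at hl
    unfold Az Ql Qs at hl
    rw [mem_filter, mem_filter, mem_Ioc] at hl
    exact ⟨hl.1.2, Nat.lt_of_floor_lt hl.1.1.1, hl.2⟩
  have hdiv : ((∏ l ∈ T, (l : ℕ) : ℕ) : ℤ) ∣ a * p ^ 2 - 1 := by
    rw [Int.natCast_dvd]
    refine Finset.prod_primes_dvd _ (fun l hl => (hlp l hl).1.prime) (fun l hl => ?_)
    exact Int.natCast_dvd.1 (hlp l hl).2.2
  have hne : a * (p : ℤ) ^ 2 - 1 ≠ 0 := by
    intro h0
    have h1 : (p : ℤ) ∣ 1 := ⟨a * p, by linear_combination -h0⟩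
    have h2 : p ∣ 1 := by exact_mod_cast h1
    exact hp.one_lt.ne' (Nat.dvd_one.1 h2)
  have hle : ((∏ l ∈ T, (l : ℕ) : ℕ) : ℝ) ≤ |((a * (p : ℤ) ^ 2 - 1 : ℤ) : ℝ)| := by
    have h1 : ((∏ l ∈ T, (l : ℕ) : ℕ) : ℤ) ≤ |a * (p : ℤ) ^ 2 - 1| :=
      Int.le_of_dvd (abs_pos.2 hne) ((dvd_abs _ _).2 hdiv)
    exact_mod_cast h1
  have hup : |((a * (p : ℤ) ^ 2 - 1 : ℤ) : ℝ)| ≤ X ^ (2.1 : ℝ) := by
    push_cast
    have hp0 : (0 : ℝ) ≤ p := Nat.cast_nonneg p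
    have hp2 : (p : ℝ) ^ 2 ≤ X ^ (0.0002 : ℝ) := by
      calc (p : ℝ) ^ 2 ≤ (X ^ (0.0001 : ℝ)) ^ 2 := pow_le_pow_left₀ hp0 hpX 2
        _ = X ^ (0.0002 : ℝ) := by
          rw [← Real.rpow_natCast, ← Real.rpow_mul hX0.le]
          norm_num
    calc |(a : ℝ) * (p : ℝ) ^ 2 - 1| ≤ |(a : ℝ) * (p : ℝ) ^ 2| + |(1 : ℝ)| := abs_sub _ _
      _ = |(a : ℝ)| * (p : ℝ) ^ 2 + 1 := by
        rw [abs_mul, abs_one, abs_of_nonneg (pow_nonneg hp0 2)]
      _ ≤ X ^ (2 : ℝ) * X ^ (0.0002 : ℝ) + 1 := by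
        have : |(a : ℝ)| ≤ X ^ (2 : ℝ) := by
          rw [Real.rpow_two]
          exact ha
        have := mul_le_mul this hp2 (pow_nonneg hp0 2) (by positivity)
        linarith
      _ ≤ X ^ (2.1 : ℝ) := hbig
  have hlow : (X ^ η) ^ T.card ≤ ((∏ l ∈ T, (l : ℕ) : ℕ) : ℝ) := by
    push_cast
    rw [← Finset.prod_const]
    exact prod_le_prod (fun l _ => by positivity) (fun l hl => (hlp l hl).2.1.le)
  have hall : X ^ (η * T.card) ≤ X ^ (2.1 : ℝ) := by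
    calc X ^ (η * T.card) = (X ^ η) ^ T.card := by rw [Real.rpow_mul hX0.le, Real.rpow_natCast]
      _ ≤ _ := hlow.trans (hle.trans hup)
  have h3 : η * T.card ≤ 2.1 := (Real.rpow_le_rpow_left_iff (by linarith)).1 hall
  rw [le_div_iff₀ hη]
  linarith

lemma DIA_U_le {X η : ℝ} {ξ : Finset ℕ → ℝ} (h : AdmL X η ξ) (T : Finset ℕ) (s : ℝ)
    (hs : (T.card : ℝ) ≤ s) : U ξ T ≤ 2 * (2 : ℝ) ^ s := by
  unfold U
  calc ∑ K ∈ T.powerset, ξ K ≤ ∑ K ∈ T.powerset, (2 : ℝ) :=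
        sum_le_sum fun K _ => (abs_le.1 (h.bd K)).2
    _ = 2 * (2 : ℝ) ^ (T.card : ℝ) := by
      rw [sum_const, card_powerset, nsmul_eq_mul, Real.rpow_natCast]
      push_cast
      ring
    _ ≤ 2 * (2 : ℝ) ^ s := by
      have := Real.rpow_le_rpow_of_exponent_le (x := 2) (by norm_num) hs
      linarith

lemma DIA_ft_bd {w : ℕ} {X η : ℝ} {ξ : Finset ℕ → ℝ} (h : AdmL X η ξ) (hX : 2 ≤ X) (hη : 0 < η)
    (p : ℕ) (hp : p.Prime) (hpX : (p : ℝ) ≤ X ^ (0.0001 : ℝ))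
    (hbig : X ^ (2 : ℝ) * X ^ (0.0002 : ℝ) + 1 ≤ X ^ (2.1 : ℝ))
    (G : ℝ) (hG0 : 0 ≤ Gs ((Qm w X η).erase p) (Rr X)) (hG : Gs ((Qm w X η).erase p) (Rr X) ≤ G)
    (a : ℤ) : ft w X η ξ p a ≤ G ^ 2 * (2 * (2 : ℝ) ^ (2.1 / η)) := by
  have hG' : 0 ≤ G := hG0.trans hG
  unfold ft
  split_ifs with hc
  · unfold fw
    rw [hc.1, DIA_Sg_empty]
    have h1 := DIA_U_le h _ _ (DIA_card X η hX hη p hp hpX hbig a hc.2)
    have h2 : Gs ((Qm w X η).erase p) (Rr X) ^ 2 ≤ G ^ 2 := pow_le_pow_left₀ hG0 hG 2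
    exact mul_le_mul h2 h1 (h.nn _ (filter_subset _ _)) (by positivity)
  · positivity

lemma DIA_big : ∃ X₀ : ℝ, ∀ X : ℝ, X₀ ≤ X → X ^ (2 : ℝ) * X ^ (0.0002 : ℝ) + 1 ≤ X ^ (2.1 : ℝ) := by
  have h1 : Filter.Tendsto (fun X : ℝ => X ^ (0.09 : ℝ)) Filter.atTop Filter.atTop :=
    tendsto_rpow_atTop (by norm_num)
  have h2 := (h1.eventually_ge_atTop 2).and (Filter.eventually_ge_atTop (1 : ℝ))
  obtain ⟨X₀, hX₀⟩ := Filter.eventually_atTop.1 h2
  refine ⟨X₀, fun X hX => ?_⟩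
  obtain ⟨g1, g2⟩ := hX₀ X hX
  have hX0 : 0 < X := by linarith
  have e1 : X ^ (2 : ℝ) * X ^ (0.0002 : ℝ) = X ^ (2.0002 : ℝ) := by
    rw [← Real.rpow_add hX0]; norm_num
  have e2 : X ^ (2.1 : ℝ) = X ^ (2.01 : ℝ) * X ^ (0.09 : ℝ) := by
    rw [← Real.rpow_add hX0]; norm_num
  have e3 : X ^ (2.0002 : ℝ) ≤ X ^ (2.01 : ℝ) := Real.rpow_le_rpow_of_exponent_le g2 (by norm_num)
  have e4 : (1 : ℝ) ≤ X ^ (2.01 : ℝ) := Real.one_le_rpow g2 (by norm_num)
  rw [e1, e2]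
  nlinarith

lemma DIA_small (η : ℝ) (hη : 0 < η) : ∃ X₀ : ℝ, ∀ X : ℝ, X₀ ≤ X → X ^ (-(η / 2)) ≤ η := by
  have h1 : Filter.Tendsto (fun X : ℝ => X ^ (-(η / 2))) Filter.atTop (nhds 0) :=
    tendsto_rpow_neg_atTop (by linarith)
  obtain ⟨X₀, hX₀⟩ := Filter.eventually_atTop.1 (h1.eventually (ge_mem_nhds hη))
  exact ⟨X₀, hX₀⟩

lemma DIA_P (C : ℝ) (hC : 0 < C) (P₀ : ℝ) : ∃ X₀ : ℝ, ∀ X P : ℝ, X₀ ≤ X →
    C * Real.log X * Real.log (Real.log X) ≤ P → P₀ ≤ P := by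
  have ht : Filter.Tendsto (fun y : ℝ => C * y * Real.log y) Filter.atTop Filter.atTop := by
    refine Filter.Tendsto.atTop_mul_atTop₀ ?_ Real.tendsto_log_atTop
    exact Filter.Tendsto.const_mul_atTop hC Filter.tendsto_id
  obtain ⟨X₀, hX₀⟩ := Filter.eventually_atTop.1
    ((ht.comp Real.tendsto_log_atTop).eventually_ge_atTop P₀)
  exact ⟨X₀, fun X P hX hP => (hX₀ X hX).trans hP⟩

theorem DIA (h1 : FMO_stmt) (h2 : LRG_stmt) (h3 : GPR_stmt) : DIA_stmt := by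
  intro eps heps w hw η hη hη1
  have hη2 : η ≤ 1 / 10 := by linarith
  have hWpos : 0 < primorial w := primorial_pos w
  have hWr : (0 : ℝ) < (primorial w : ℝ) := by exact_mod_cast hWpos
  have hφ : 0 < Nat.totient (primorial w) := Nat.totient_pos.2 hWpos
  have hφr : (0 : ℝ) < (Nat.totient (primorial w) : ℝ) := by exact_mod_cast hφ
  set B : ℝ := 2 * (2 : ℝ) ^ (2.1 / η) with hB
  have hBpos : 0 < B := by positivity
  set C : ℝ := 64 * (Nat.totient (primorial w) : ℝ) * (21 * B / (eps * η)) with hC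
  have hCpos : 0 < C := by positivity
  obtain ⟨X₁, hX₁⟩ := h1 w hw η hη hη2
  obtain ⟨X₂, hX₂⟩ := h2 η hη hη2
  obtain ⟨X₃, hX₃⟩ := DIA_big
  obtain ⟨X₄, hX₄⟩ := DIA_small η hη
  obtain ⟨P₀, hP₀⟩ := Ps_lower w
  obtain ⟨X₅, hX₅⟩ := DIA_P C hCpos (max P₀ 3)
  obtain ⟨X₆, hX₆⟩ := K3_growth C hCpos
  obtain ⟨X₇, hX₇⟩ := Gs_le w hw
  refine ⟨C, max (max (max X₁ X₂) (max X₃ X₄)) (max (max X₅ X₆) (max X₇ 3)), hCpos, ?_⟩
  intro X P hX hP a₀ b hb ξ hξ hV0 hV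
  have q1 : X₁ ≤ X := ((le_max_left _ _).trans ((le_max_left _ _).trans (le_max_left _ _))).trans hX
  have q2 : X₂ ≤ X := ((le_max_right _ _).trans ((le_max_left _ _).trans (le_max_left _ _))).trans hX
  have q3 : X₃ ≤ X := ((le_max_left _ _).trans ((le_max_right _ _).trans (le_max_left _ _))).trans hX
  have q4 : X₄ ≤ X := ((le_max_right _ _).trans ((le_max_right _ _).trans (le_max_left _ _))).trans hX
  have q5 : X₅ ≤ X := ((le_max_left _ _).trans ((le_max_left _ _).trans (le_max_right _ _))).trans hX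
  have q6 : X₆ ≤ X := ((le_max_right _ _).trans ((le_max_left _ _).trans (le_max_right _ _))).trans hX
  have q7 : X₇ ≤ X := ((le_max_left _ _).trans ((le_max_right _ _).trans (le_max_right _ _))).trans hX
  have q8 : 3 ≤ X := ((le_max_right _ _).trans ((le_max_right _ _).trans (le_max_right _ _))).trans hX
  have hX0 : 0 < X := by linarith
  set G : ℝ := Gs (Qm w X η) (Rr X) with hG
  set n : ℝ := (((Ps (primorial w) b P).card : ℕ) : ℝ) with hn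
  have hR1 : 1 ≤ Rr X := by
    unfold Rr
    exact Real.one_le_rpow (by linarith) (by norm_num)
  have hQm : Qm w X η ⊆ Qs w ⌊X ^ η⌋₊ := by
    unfold Qm
    exact Subset.refl _
  have hGle : G ≤ Real.log X := by
    have g1 := hX₇ X q7 _ _ hQm (Rr X) (by
      unfold Rr
      exact Real.rpow_le_rpow_of_exponent_le (by linarith) (by norm_num))
    have g2 : Aw w ≤ 1 := by
      unfold Aw
      rw [div_le_one hWr]
      exact_mod_cast Nat.totient_le _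
    have g3 : 0 ≤ Real.log X := Real.log_nonneg (by linarith)
    nlinarith
  have hPge : max P₀ 3 ≤ P := hX₅ X P q5 hP.1
  have hG1 : 1 ≤ G := by
    -- from GPR for `p = w + 1`
    have := h3 w ⌊X ^ η⌋₊ (by omega) (Qm w X η) hQm (Rr X) (w + 1) hR1 (by omega)
    exact this.1.trans this.2.1
  have hlogP : 0 < Real.log P := Real.log_pos (by linarith [le_max_right P₀ 3])
  have hnlow : 21 * B / (eps * η) * Real.log X ≤ n := by
    have g1 := hP₀ P ((le_max_left _ _).trans hPge) b hb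
    have g2 := (hX₆ X P q6 hP.1).2
    calc 21 * B / (eps * η) * Real.log X
        = (C / 2 * Real.log X) / (32 * (Nat.totient (primorial w) : ℝ)) := by
          rw [hC]
          field_simp
          ring
      _ ≤ (P / Real.log P) / (32 * (Nat.totient (primorial w) : ℝ)) := by gcongr
      _ = P / (32 * (Nat.totient (primorial w) : ℝ) * Real.log P) := by
          field_simp
      _ ≤ n := g1
  -- each term
  have hterm : ∀ p ∈ Ps (primorial w) b P,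
      EN (primorial w) a₀ (2 * X) (fun a => ft w X η ξ p a ^ 2) ≤
        (G ^ 2 * B) * (2 * X / (primorial w : ℝ) * (G * (21 * η))) := by
    intro p hp
    have hpp : p.Prime := K4_prime hp
    have hwp : w < p := K4_gt hb hp
    have hpP : (p : ℝ) ≤ P := by
      unfold Ps at hp
      rw [mem_filter, mem_Icc] at hp
      exact (Nat.cast_le.2 hp.1.2).trans (Nat.floor_le (by linarith [le_max_right P₀ 3]))
    have hpX : (p : ℝ) ≤ X ^ (0.0001 : ℝ) := hpP.trans hP.2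
    have hpX1 : (p : ℝ) ≤ X := by
      refine hpX.trans ?_
      calc X ^ (0.0001 : ℝ) ≤ X ^ (1 : ℝ) :=
            Real.rpow_le_rpow_of_exponent_le (by linarith) (by norm_num)
        _ = X := Real.rpow_one X
    obtain ⟨g1, g2, _⟩ := h3 w ⌊X ^ η⌋₊ (by omega) (Qm w X η) hQm (Rr X) p hR1 hwp
    have hGp0 : 0 ≤ Gs ((Qm w X η).erase p) (Rr X) := by linarith
    have hbd : ∀ a : ℤ, ft w X η ξ p a ≤ G ^ 2 * B := fun a =>
      DIA_ft_bd hξ (by linarith) hη p hpp hpX (hX₃ X q3) G hGp0 g2 a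
    have hS0 : 0 ≤ G ^ 2 * B := by positivity
    have hV' : Vx ((Ql X η).erase p) ξ ≤ 21 * η ∧ 0 ≤ Vx ((Ql X η).erase p) ξ := by
      have g5 := hX₂ X q2 ξ hξ p 2 hpp Nat.prime_two (by omega) hpX1 (by push_cast; linarith)
      have g6 := (abs_le.1 g5.1).2
      have g7 := hX₄ X q4
      exact ⟨by linarith, g5.2.1⟩
    have hB1 : Bd (fw w X η ξ p) := DIA_Bd_fw w X η ξ p
    have hB2 : Bd (ft w X η ξ p) := Bd.of_le hB1 (fun a => by
      rw [abs_of_nonneg (DIA_ft_nonneg hξ p a), abs_of_nonneg (DIA_fw_nonneg hξ p a)]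
      exact DIA_ft_le hξ p a)
    have hB3 : Bd (fun a => ft w X η ξ p a ^ 2) := by
      have := hB2.mul hB2
      obtain ⟨D, hD⟩ := this
      exact ⟨D, fun a => by
        have h := hD a
        simp only at h ⊢
        rwa [pow_two]⟩
    have hm : EN (primorial w) a₀ (2 * X) (fun a => ft w X η ξ p a ^ 2) ≤
        EN (primorial w) a₀ (2 * X) (fun a => G ^ 2 * B * fw w X η ξ p a) := by
      refine EN_mono hB3 (hB1.cmul _) (fun a => ?_) _ _ _ (by linarith)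
      have k1 := DIA_ft_nonneg hξ p a (w := w)
      have k2 := DIA_ft_le hξ p a (w := w)
      have k3 := hbd a
      calc ft w X η ξ p a ^ 2 = ft w X η ξ p a * ft w X η ξ p a := pow_two _
        _ ≤ G ^ 2 * B * fw w X η ξ p a := mul_le_mul k3 k2 k1 hS0
    rw [EN_cmul] at hm
    have hf := (hX₁ X q1 p hpp hwp hpX a₀ ξ hξ).1
    have hf' : EN (primorial w) a₀ (2 * X) (fun a => fw w X η ξ p a) =
        2 * X / (primorial w : ℝ) *
          (Gs ((Qm w X η).erase p) (Rr X) * Vx ((Ql X η).erase p) ξ) := hf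
    rw [hf'] at hm
    refine hm.trans (mul_le_mul_of_nonneg_left (mul_le_mul_of_nonneg_left ?_ (by positivity)) hS0)
    exact mul_le_mul g2 hV'.1 hV'.2 (by linarith)
  -- the sum
  have hsum := sum_le_sum hterm
  rw [sum_const, nsmul_eq_mul] at hsum
  refine hsum.trans ?_
  have hn0 : 0 ≤ n := Nat.cast_nonneg _
  have key : 21 * B * G ≤ eps * η * n := by
    have k1 : 21 * B / (eps * η) * G ≤ n := by
      refine le_trans ?_ hnlow
      gcongr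
    have k2 : 0 < eps * η := by positivity
    calc 21 * B * G = eps * η * (21 * B / (eps * η) * G) := by field_simp
      _ ≤ eps * η * n := mul_le_mul_of_nonneg_left k1 k2.le
  have h0 : 0 ≤ 2 * X / (primorial w : ℝ) := by positivity
  calc n * (G ^ 2 * B * (2 * X / (primorial w : ℝ) * (G * (21 * η))))
      = (2 * X / (primorial w : ℝ)) * (n * G ^ 2 * η) * (21 * B * G) := by ring
    _ ≤ (2 * X / (primorial w : ℝ)) * (n * G ^ 2 * η) * (eps * η * n) :=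
        mul_le_mul_of_nonneg_left key (by positivity)
    _ = eps * (2 * X / (primorial w : ℝ)) * (n * G * η) ^ 2 := by ring

end Pool.Agent.PT
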